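import Mathlib

/-! The volume of a region in dimension four (helper441). -/

set_option autoImplicit false

open MeasureTheory Set

namespace Pool.Agent.H441.TD.VolC

/-- Tonelli -/
lemma vol_cons {n : ℕ} (A : Set (Fin (n + 1) → ℝ)) (hA : MeasurableSet A) :
    volume A = ∫⁻ x : ℝ, volume {y : Fin n → ℝ | (Fin.cons x y : Fin (n + 1) → ℝ) ∈ A} := by
  have mp := (volume_preserving_piFinSuccAbove (fun _ : Fin (n + 1) => ℝ) 0).symm
  rw [← mp.measure_preimage hA.nullMeasurableSet, Measure.volume_eq_prod,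
    Measure.prod_apply (mp.measurable hA)]
  refine lintegral_congr fun x => ?_
  congr 1
  ext y
  have h1 : (MeasurableEquiv.piFinSuccAbove (fun _ : Fin (n + 1) => ℝ) 0).symm (x, y) =
      (Fin.cons x y : Fin (n + 1) → ℝ) := by
    simp [MeasurableEquiv.piFinSuccAbove, Fin.insertNthEquiv]
  simp only [mem_preimage, mem_ofPred_eq]
  rw [h1]

lemma meas_cons {n : ℕ} (A : Set (Fin (n + 1) → ℝ)) (hA : MeasurableSet A) (x : ℝ) :
    MeasurableSet {y : Fin n → ℝ | (Fin.cons x y : Fin (n + 1) → ℝ) ∈ A} := by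
  refine hA.preimage ?_
  refine measurable_pi_lambda _ fun i => ?_
  refine Fin.cases ?_ (fun i => ?_) i
  · simp
  · simpa using measurable_pi_apply i

/-- the linear substitution -/
noncomputable def M : Matrix (Fin 4) (Fin 4) ℝ :=
  !![0, 0, 1, 0; 1, 0, -1, 0; 0, 0, 0, 1; 0, 1, 0, -1]

lemma detM : |M.det| = 1 := by
  unfold M
  simp [Matrix.det_succ_row_zero, Fin.sum_univ_succ, Fin.succAbove]

lemma vol4 (A : Set (Fin 4 → ℝ)) (hA : MeasurableSet A) :
    volume A = ∫⁻ t : ℝ, ∫⁻ t' : ℝ,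
      volume {w : ℝ × ℝ | (![w.1, t - w.1, w.2, t' - w.2] : Fin 4 → ℝ) ∈ A} := by
  have hdet : M.det ≠ 0 := by
    intro h
    have := detM
    rw [h, abs_zero] at this
    exact zero_ne_one this
  have h1 := Real.map_matrix_volume_pi_eq_smul_volume_pi hdet
  have h2 : ENNReal.ofReal |M.det⁻¹| = 1 := by
    rw [abs_inv, detM]
    simp
  rw [h2, one_smul] at h1
  have hT : Measurable (Matrix.toLin' M : (Fin 4 → ℝ) → (Fin 4 → ℝ)) :=
    (LinearMap.continuous_of_finiteDimensional _).measurable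
  have h3 : volume A = volume ((Matrix.toLin' M : (Fin 4 → ℝ) → (Fin 4 → ℝ)) ⁻¹' A) := by
    conv_lhs => rw [← h1]
    exact Measure.map_apply hT hA
  have hA' := hT hA
  rw [h3, vol_cons _ hA']
  refine lintegral_congr fun t => ?_
  rw [vol_cons _ (meas_cons _ hA' t)]
  refine lintegral_congr fun t' => ?_
  have mp := (volume_preserving_finTwoArrow ℝ).symm
  rw [← mp.measure_preimage (meas_cons _ (meas_cons _ hA' t) t').nullMeasurableSet]
  congr 1
  ext w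
  simp only [mem_preimage, mem_ofPred_eq]
  have : (Matrix.toLin' M : (Fin 4 → ℝ) → (Fin 4 → ℝ))
      (Fin.cons t (Fin.cons t' ((MeasurableEquiv.finTwoArrow (α := ℝ)).symm w))) =
      ![w.1, t - w.1, w.2, t' - w.2] := by
    funext i
    fin_cases i <;>
      simp [M, Matrix.toLin'_apply, Matrix.mulVec, dotProduct, Fin.sum_univ_succ,
        MeasurableEquiv.finTwoArrow, sub_eq_add_neg]
  rw [this]

/-- one-dimensional integrals -/
lemma L1 (F : ℝ → ENNReal) (h : ℝ → ℝ) (a m : ℝ) (ham : a ≤ m) (hc : Continuous h)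
    (h0 : ∀ x ∈ Ioc a m, 0 ≤ h x ∧ F x = ENNReal.ofReal (h x)) (h1 : ∀ x, m < x → F x = 0) :
    ∫⁻ x in Ioi a, F x = ENNReal.ofReal (∫ x in a..m, h x) := by
  rw [← Ioc_union_Ioi_eq_Ioi ham, lintegral_union measurableSet_Ioi
    (Set.disjoint_left.2 fun x hx hx' => absurd hx.2 (not_le.2 hx'))]
  rw [setLIntegral_congr_fun measurableSet_Ioc (fun x hx => (h0 x hx).2),
    setLIntegral_congr_fun (g := fun _ => 0) measurableSet_Ioi (fun x hx => h1 x hx)]
  rw [lintegral_zero, add_zero, intervalIntegral.integral_of_le ham,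
    ofReal_integral_eq_lintegral_ofReal]
  · exact (hc.integrableOn_Icc).mono_set Ioc_subset_Icc_self
  · filter_upwards [ae_restrict_mem measurableSet_Ioc] with x hx
    exact (h0 x hx).1


/-- the three regions -/
def Bal : Set (Fin 4 → ℝ) := {z | 0 < z 0 ∧ z 0 < z 1 ∧ z 0 + 2 * z 1 < 1 ∧ 1 / 2 < z 0 + z 1 ∧
  0 < z 2 ∧ z 2 < z 3 ∧ z 2 + 2 * z 3 < 1 ∧ 1 / 2 < z 2 + z 3}

def RA : Set (Fin 4 → ℝ) := {z | z ∈ Bal ∧ z 0 + 3 / 2 * (z 2 + z 3) < 1}

def RB : Set (Fin 4 → ℝ) := {z | z ∈ Bal ∧ z 2 + 3 / 2 * (z 0 + z 1) < 1}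

lemma mBal : MeasurableSet Bal := by
  unfold Bal
  measurability

lemma mRA : MeasurableSet RA := by
  have : MeasurableSet {z : Fin 4 → ℝ | z 0 + 3 / 2 * (z 2 + z 3) < 1} := by measurability
  exact mBal.inter this

lemma mRB : MeasurableSet RB := by
  have : MeasurableSet {z : Fin 4 → ℝ | z 2 + 3 / 2 * (z 0 + z 1) < 1} := by measurability
  exact mBal.inter this

/-- the slices -/
lemma slB {t t' : ℝ} (ht : 1 / 2 < t) (ht' : 1 / 2 < t') :
    {w : ℝ × ℝ | (![w.1, t - w.1, w.2, t' - w.2] : Fin 4 → ℝ) ∈ RB} =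
      Ioo (2 * t - 1) (t / 2) ×ˢ Ioo (2 * t' - 1) (1 - 3 / 2 * t) := by
  ext ⟨s, s'⟩
  simp only [RB, Bal, mem_ofPred_eq, mem_prod, mem_Ioo, Matrix.cons_val_zero, Matrix.cons_val_one,
    Matrix.cons_val]
  constructor
  · rintro ⟨⟨h1, h2, h3, h4, h5, h6, h7, h8⟩, h9⟩
    refine ⟨⟨by linarith, by linarith⟩, by linarith, by linarith⟩
  · rintro ⟨⟨h1, h2⟩, h3, h4⟩
    refine ⟨⟨by linarith, by linarith, by linarith, by linarith, by linarith, by linarith,
      by linarith, by linarith⟩, by linarith⟩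

lemma slA {t t' : ℝ} (ht : 1 / 2 < t) (ht' : 1 / 2 < t') :
    {w : ℝ × ℝ | (![w.1, t - w.1, w.2, t' - w.2] : Fin 4 → ℝ) ∈ RA} =
      Ioo (2 * t - 1) (1 - 3 / 2 * t') ×ˢ Ioo (2 * t' - 1) (t' / 2) := by
  ext ⟨s, s'⟩
  simp only [RA, Bal, mem_ofPred_eq, mem_prod, mem_Ioo, Matrix.cons_val_zero, Matrix.cons_val_one,
    Matrix.cons_val]
  constructor
  · rintro ⟨⟨h1, h2, h3, h4, h5, h6, h7, h8⟩, h9⟩
    refine ⟨⟨by linarith, by linarith⟩, by linarith, by linarith⟩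
  · rintro ⟨⟨h1, h2⟩, h3, h4⟩
    refine ⟨⟨by linarith, by linarith, by linarith, by linarith, by linarith, by linarith,
      by linarith, by linarith⟩, by linarith⟩

lemma slI {t t' : ℝ} (ht : 1 / 2 < t) (ht' : 1 / 2 < t') :
    {w : ℝ × ℝ | (![w.1, t - w.1, w.2, t' - w.2] : Fin 4 → ℝ) ∈ RA ∩ RB} =
      Ioo (2 * t - 1) (1 - 3 / 2 * t') ×ˢ Ioo (2 * t' - 1) (1 - 3 / 2 * t) := by
  have : {w : ℝ × ℝ | (![w.1, t - w.1, w.2, t' - w.2] : Fin 4 → ℝ) ∈ RA ∩ RB} =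
    {w : ℝ × ℝ | (![w.1, t - w.1, w.2, t' - w.2] : Fin 4 → ℝ) ∈ RA} ∩
    {w : ℝ × ℝ | (![w.1, t - w.1, w.2, t' - w.2] : Fin 4 → ℝ) ∈ RB} := rfl
  rw [this, slA ht ht', slB ht ht']
  ext ⟨s, s'⟩
  simp only [mem_inter_iff, mem_prod, mem_Ioo]
  constructor
  · rintro ⟨⟨⟨h1, h2⟩, h3, h4⟩, ⟨h5, h6⟩, h7, h8⟩
    exact ⟨⟨h1, h2⟩, h3, h8⟩
  · rintro ⟨⟨h1, h2⟩, h3, h4⟩
    exact ⟨⟨⟨h1, h2⟩, h3, by linarith⟩, ⟨h1, by linarith⟩, h3, h4⟩

/-- restriction to `t, t' > 1/2` -/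
lemma restr (A : Set (Fin 4 → ℝ)) (hA : MeasurableSet A) (hB : A ⊆ Bal) :
    volume A = ∫⁻ t in Ioi (1 / 2 : ℝ), ∫⁻ t' in Ioi (1 / 2 : ℝ),
      volume {w : ℝ × ℝ | (![w.1, t - w.1, w.2, t' - w.2] : Fin 4 → ℝ) ∈ A} := by
  have h1 : ∀ t t' : ℝ, (t ∉ Ioi (1 / 2 : ℝ) ∨ t' ∉ Ioi (1 / 2 : ℝ)) →
      volume {w : ℝ × ℝ | (![w.1, t - w.1, w.2, t' - w.2] : Fin 4 → ℝ) ∈ A} = 0 := by
    intro t t' h
    have : {w : ℝ × ℝ | (![w.1, t - w.1, w.2, t' - w.2] : Fin 4 → ℝ) ∈ A} = ∅ := by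
      rw [eq_empty_iff_forall_notMem]
      intro w hw
      have h2 := hB hw
      simp only [Bal, mem_ofPred_eq, Matrix.cons_val_zero, Matrix.cons_val_one,
        Matrix.cons_val] at h2
      obtain ⟨-, -, -, h3, -, -, -, h4⟩ := h2
      rcases h with h | h
      · exact h (by rw [mem_Ioi]; linarith)
      · exact h (by rw [mem_Ioi]; linarith)
    rw [this, measure_empty]
  rw [vol4 A hA, ← lintegral_indicator measurableSet_Ioi]
  refine lintegral_congr fun t => ?_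
  by_cases ht : t ∈ Ioi (1 / 2 : ℝ)
  · rw [indicator_of_mem ht, ← lintegral_indicator measurableSet_Ioi]
    refine lintegral_congr fun t' => ?_
    by_cases ht' : t' ∈ Ioi (1 / 2 : ℝ)
    · rw [indicator_of_mem ht']
    · rw [indicator_of_notMem ht', h1 t t' (Or.inr ht')]
  · rw [indicator_of_notMem ht]
    simp only [h1 t _ (Or.inl ht), lintegral_zero]

open ENNReal in
/-- the inner integral for `RB` -/
lemma innerB {t : ℝ} (_ : 1 / 2 < t) (ht2 : t ≤ 2 / 3) :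
    ∫⁻ t' in Ioi (1 / 2 : ℝ), ENNReal.ofReal (2 - 2 * t' - 3 / 2 * t) =
      ENNReal.ofReal ((1 - 3 / 2 * t) ^ 2 / 4) := by
  rw [L1 _ (fun t' => 2 - 2 * t' - 3 / 2 * t) (1 / 2) (1 - 3 / 4 * t) (by linarith)
    (by fun_prop)]
  · congr 1
    have : ∀ x : ℝ, HasDerivAt (fun x : ℝ => (2 - 3 / 2 * t) * x - x ^ 2) (2 - 2 * x - 3 / 2 * t) x := by
      intro x
      have h1 := ((hasDerivAt_id x).const_mul (2 - 3 / 2 * t)).sub (hasDerivAt_pow 2 x)
      refine h1.congr_deriv ?_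
      norm_num
      ring
    rw [intervalIntegral.integral_eq_sub_of_hasDerivAt (fun x _ => this x)
      (by apply Continuous.intervalIntegrable; fun_prop)]
    ring
  · intro x hx
    exact ⟨by linarith [hx.2], rfl⟩
  · intro x hx
    exact ENNReal.ofReal_of_nonpos (by linarith)

lemma volRB : volume RB = ENNReal.ofReal (1 / 6144) := by
  rw [restr RB mRB fun z hz => hz.1]
  rw [L1 _ (fun t => (1 - 3 / 2 * t) ^ 3 / 4) (1 / 2) (2 / 3) (by norm_num) (by fun_prop)]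
  · congr 1
    have : ∀ x : ℝ, HasDerivAt (fun x : ℝ => -(1 - 3 / 2 * x) ^ 4 / 24)
        ((1 - 3 / 2 * x) ^ 3 / 4) x := by
      intro x
      have h1 := ((((hasDerivAt_id x).const_mul (3 / 2)).const_sub 1).pow 4).neg.div_const 24
      refine h1.congr_deriv ?_
      norm_num
      ring
    rw [intervalIntegral.integral_eq_sub_of_hasDerivAt (fun x _ => this x)
      (by apply Continuous.intervalIntegrable; fun_prop)]
    norm_num
  · intro t ht
    have h0 : 0 ≤ 1 - 3 / 2 * t := by linarith [ht.2]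
    refine ⟨by positivity, ?_⟩
    rw [setLIntegral_congr_fun (g := fun t' => ENNReal.ofReal (1 - 3 / 2 * t) *
      ENNReal.ofReal (2 - 2 * t' - 3 / 2 * t)) measurableSet_Ioi (fun t' ht' => by
        show volume _ = _
        rw [slB ht.1 ht', Measure.volume_eq_prod, Measure.prod_prod, Real.volume_Ioo,
          Real.volume_Ioo]
        congr 2 <;> ring),
      lintegral_const_mul _ (by fun_prop), innerB ht.1 ht.2, ← ENNReal.ofReal_mul h0]
    congr 1
    ring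
  · intro t ht
    rw [setLIntegral_congr_fun (g := fun _ => 0) measurableSet_Ioi (fun t' ht' => by
        show volume _ = _
        rw [slB (by linarith) ht', Measure.volume_eq_prod, Measure.prod_prod, Real.volume_Ioo,
          ENNReal.ofReal_of_nonpos (by linarith), zero_mul])]
    exact lintegral_zero

lemma volRA : volume RA = ENNReal.ofReal (1 / 6144) := by
  rw [restr RA mRA fun z hz => hz.1]
  have e1 : ∫⁻ t in Ioi (1 / 2 : ℝ), ∫⁻ t' in Ioi (1 / 2 : ℝ),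
      volume {w : ℝ × ℝ | (![w.1, t - w.1, w.2, t' - w.2] : Fin 4 → ℝ) ∈ RA} =
      ∫⁻ t in Ioi (1 / 2 : ℝ), ∫⁻ t' in Ioi (1 / 2 : ℝ),
        ENNReal.ofReal (2 - 2 * t - 3 / 2 * t') * ENNReal.ofReal (1 - 3 / 2 * t') := by
    refine setLIntegral_congr_fun measurableSet_Ioi fun t ht => ?_
    refine setLIntegral_congr_fun measurableSet_Ioi fun t' ht' => ?_
    show volume _ = _
    rw [slA ht ht', Measure.volume_eq_prod, Measure.prod_prod, Real.volume_Ioo, Real.volume_Ioo]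
    congr 2 <;> ring
  rw [e1, lintegral_lintegral_swap (by fun_prop)]
  rw [L1 _ (fun t => (1 - 3 / 2 * t) ^ 3 / 4) (1 / 2) (2 / 3) (by norm_num) (by fun_prop)]
  · congr 1
    have : ∀ x : ℝ, HasDerivAt (fun x : ℝ => -(1 - 3 / 2 * x) ^ 4 / 24)
        ((1 - 3 / 2 * x) ^ 3 / 4) x := by
      intro x
      have h1 := ((((hasDerivAt_id x).const_mul (3 / 2)).const_sub 1).pow 4).neg.div_const 24
      refine h1.congr_deriv ?_
      norm_num
      ring
    rw [intervalIntegral.integral_eq_sub_of_hasDerivAt (fun x _ => this x)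
      (by apply Continuous.intervalIntegrable; fun_prop)]
    norm_num
  · intro t ht
    have h0 : 0 ≤ 1 - 3 / 2 * t := by linarith [ht.2]
    refine ⟨by positivity, ?_⟩
    rw [lintegral_mul_const _ (by fun_prop), innerB ht.1 ht.2, ← ENNReal.ofReal_mul (by positivity)]
    congr 1
    ring
  · intro t ht
    rw [setLIntegral_congr_fun (g := fun _ => 0) measurableSet_Ioi (fun t' ht' => by
        show _ * _ = _
        rw [ENNReal.ofReal_of_nonpos (p := 1 - 3 / 2 * t) (by linarith), mul_zero])]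
    exact lintegral_zero

/-- the inner integral for `RA ∩ RB` -/
lemma innerI (t m : ℝ) (hm : 1 / 2 ≤ m) (h1 : 0 ≤ 2 - 2 * t - 3 / 2 * m)
    (h2 : 0 ≤ 2 - 2 * m - 3 / 2 * t)
    (h3 : ∀ x, m < x → 2 - 2 * t - 3 / 2 * x ≤ 0 ∨ 2 - 2 * x - 3 / 2 * t ≤ 0) (G : ℝ)
    (hG : G = ((2 - 2 * t) * (2 - 3 / 2 * t) * m - (2 * (2 - 2 * t) + 3 / 2 * (2 - 3 / 2 * t)) *
      m ^ 2 / 2 + m ^ 3) - ((2 - 2 * t) * (2 - 3 / 2 * t) * (1 / 2) - (2 * (2 - 2 * t) +
      3 / 2 * (2 - 3 / 2 * t)) * (1 / 2) ^ 2 / 2 + (1 / 2) ^ 3)) :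
    0 ≤ G ∧ ∫⁻ t' in Ioi (1 / 2 : ℝ), ENNReal.ofReal (2 - 2 * t - 3 / 2 * t') *
      ENNReal.ofReal (2 - 2 * t' - 3 / 2 * t) = ENNReal.ofReal G := by
  have hpos : ∀ x ∈ Icc (1 / 2) m, 0 ≤ 2 - 2 * t - 3 / 2 * x ∧ 0 ≤ 2 - 2 * x - 3 / 2 * t :=
    fun x hx => ⟨by linarith [hx.2], by linarith [hx.2]⟩
  have hint : ∫ x in (1 / 2)..m, (2 - 2 * t - 3 / 2 * x) * (2 - 2 * x - 3 / 2 * t) = G := by
    have : ∀ x : ℝ, HasDerivAt (fun x : ℝ => (2 - 2 * t) * (2 - 3 / 2 * t) * x -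
        (2 * (2 - 2 * t) + 3 / 2 * (2 - 3 / 2 * t)) * x ^ 2 / 2 + x ^ 3)
        ((2 - 2 * t - 3 / 2 * x) * (2 - 2 * x - 3 / 2 * t)) x := by
      intro x
      have h1 := (((hasDerivAt_id x).const_mul ((2 - 2 * t) * (2 - 3 / 2 * t))).sub
        (((hasDerivAt_pow 2 x).const_mul
          (2 * (2 - 2 * t) + 3 / 2 * (2 - 3 / 2 * t))).div_const 2)).add (hasDerivAt_pow 3 x)
      refine h1.congr_deriv ?_
      norm_num
      ring
    rw [intervalIntegral.integral_eq_sub_of_hasDerivAt (fun x _ => this x)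
      (by apply Continuous.intervalIntegrable; fun_prop), hG]
  constructor
  · rw [← hint]
    refine intervalIntegral.integral_nonneg hm fun x hx => ?_
    exact mul_nonneg (hpos x hx).1 (hpos x hx).2
  · rw [L1 _ (fun x => (2 - 2 * t - 3 / 2 * x) * (2 - 2 * x - 3 / 2 * t)) (1 / 2) m hm
      (by fun_prop), hint]
    · intro x hx
      have h4 := hpos x ⟨hx.1.le, hx.2⟩
      exact ⟨mul_nonneg h4.1 h4.2, (ENNReal.ofReal_mul h4.1).symm⟩
    · intro x hx
      rcases h3 x hx with h | h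
      · rw [ENNReal.ofReal_of_nonpos h, zero_mul]
      · rw [ENNReal.ofReal_of_nonpos h, mul_zero]

/-- one-dimensional integrals -/
lemma L2 (F : ℝ → ENNReal) (h : ℝ → ℝ) (a m : ℝ) (ham : a ≤ m) (hc : Continuous h)
    (h0 : ∀ x ∈ Ioc a m, 0 ≤ h x ∧ F x = ENNReal.ofReal (h x)) :
    ∫⁻ x in Ioc a m, F x = ENNReal.ofReal (∫ x in a..m, h x) := by
  rw [setLIntegral_congr_fun measurableSet_Ioc (fun x hx => (h0 x hx).2)]
  rw [intervalIntegral.integral_of_le ham, ofReal_integral_eq_lintegral_ofReal]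
  · exact (hc.integrableOn_Icc).mono_set Ioc_subset_Icc_self
  · filter_upwards [ae_restrict_mem measurableSet_Ioc] with x hx
    exact (h0 x hx).1

lemma volI : volume (RA ∩ RB) = ENNReal.ofReal (3 / 28672) := by
  rw [restr (RA ∩ RB) (mRA.inter mRB) fun z hz => hz.1.1]
  have e1 : ∫⁻ t in Ioi (1 / 2 : ℝ), ∫⁻ t' in Ioi (1 / 2 : ℝ),
      volume {w : ℝ × ℝ | (![w.1, t - w.1, w.2, t' - w.2] : Fin 4 → ℝ) ∈ RA ∩ RB} =
      ∫⁻ t in Ioi (1 / 2 : ℝ), ∫⁻ t' in Ioi (1 / 2 : ℝ),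
        ENNReal.ofReal (2 - 2 * t - 3 / 2 * t') * ENNReal.ofReal (2 - 2 * t' - 3 / 2 * t) := by
    refine setLIntegral_congr_fun measurableSet_Ioi fun t ht => ?_
    refine setLIntegral_congr_fun measurableSet_Ioi fun t' ht' => ?_
    show volume _ = _
    rw [slI ht ht', Measure.volume_eq_prod, Measure.prod_prod, Real.volume_Ioo, Real.volume_Ioo]
    congr 2 <;> ring
  rw [e1, ← Ioc_union_Ioi_eq_Ioi (show (1 / 2 : ℝ) ≤ 4 / 7 by norm_num),
    lintegral_union measurableSet_Ioi (Set.disjoint_left.2 fun x hx hx' =>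
      absurd hx.2 (not_le.2 hx')), Ioc_union_Ioi_eq_Ioi (show (1 / 2 : ℝ) ≤ 4 / 7 by norm_num)]
  rw [L2 _ (fun t => 1 / 4 - 37 / 32 * t + 57 / 32 * t ^ 2 - 117 / 128 * t ^ 3) (1 / 2) (4 / 7)
    (by norm_num) (by fun_prop) ?_,
    L1 _ (fun t => 25 / 108 - 305 / 288 * t + 29 / 18 * t ^ 2 - 22 / 27 * t ^ 3) (4 / 7) (5 / 8)
    (by norm_num) (by fun_prop) ?_ ?_]
  · have i1 : ∫ t in (1 / 2 : ℝ)..(4 / 7), (1 / 4 - 37 / 32 * t + 57 / 32 * t ^ 2 -
        117 / 128 * t ^ 3) = (1 / 4 * (4 / 7) - 37 / 64 * (4 / 7) ^ 2 + 19 / 32 * (4 / 7) ^ 3 -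
          117 / 512 * (4 / 7) ^ 4) - (1 / 4 * (1 / 2) - 37 / 64 * (1 / 2) ^ 2 +
          19 / 32 * (1 / 2) ^ 3 - 117 / 512 * (1 / 2) ^ 4) := by
      have : ∀ x : ℝ, HasDerivAt (fun x : ℝ => 1 / 4 * x - 37 / 64 * x ^ 2 + 19 / 32 * x ^ 3 -
          117 / 512 * x ^ 4) (1 / 4 - 37 / 32 * x + 57 / 32 * x ^ 2 - 117 / 128 * x ^ 3) x := by
        intro x
        have h1 := ((((hasDerivAt_id x).const_mul (1 / 4)).sub
          ((hasDerivAt_pow 2 x).const_mul (37 / 64))).add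
          ((hasDerivAt_pow 3 x).const_mul (19 / 32))).sub
          ((hasDerivAt_pow 4 x).const_mul (117 / 512))
        refine h1.congr_deriv ?_
        norm_num
        ring
      rw [intervalIntegral.integral_eq_sub_of_hasDerivAt (fun x _ => this x)
        (by apply Continuous.intervalIntegrable; fun_prop)]
    have i2 : ∫ t in (4 / 7 : ℝ)..(5 / 8), (25 / 108 - 305 / 288 * t + 29 / 18 * t ^ 2 -
        22 / 27 * t ^ 3) = (25 / 108 * (5 / 8) - 305 / 576 * (5 / 8) ^ 2 + 29 / 54 * (5 / 8) ^ 3 -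
          11 / 54 * (5 / 8) ^ 4) - (25 / 108 * (4 / 7) - 305 / 576 * (4 / 7) ^ 2 +
          29 / 54 * (4 / 7) ^ 3 - 11 / 54 * (4 / 7) ^ 4) := by
      have : ∀ x : ℝ, HasDerivAt (fun x : ℝ => 25 / 108 * x - 305 / 576 * x ^ 2 + 29 / 54 * x ^ 3 -
          11 / 54 * x ^ 4) (25 / 108 - 305 / 288 * x + 29 / 18 * x ^ 2 - 22 / 27 * x ^ 3) x := by
        intro x
        have h1 := ((((hasDerivAt_id x).const_mul (25 / 108)).sub
          ((hasDerivAt_pow 2 x).const_mul (305 / 576))).add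
          ((hasDerivAt_pow 3 x).const_mul (29 / 54))).sub
          ((hasDerivAt_pow 4 x).const_mul (11 / 54))
        refine h1.congr_deriv ?_
        norm_num
        ring
      rw [intervalIntegral.integral_eq_sub_of_hasDerivAt (fun x _ => this x)
        (by apply Continuous.intervalIntegrable; fun_prop)]
    rw [i1, i2, ← ENNReal.ofReal_add (by norm_num) (by norm_num)]
    congr 1
    norm_num
  · intro t ht
    exact innerI t (4 / 3 * (1 - t)) (by linarith [ht.2]) (by linarith) (by linarith [ht.1])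
      (fun x hx => Or.inl (by linarith)) _ (by ring)
  · intro t ht
    rw [setLIntegral_congr_fun (g := fun _ => 0) measurableSet_Ioi (fun t' ht' => by
        have ht'' : 1 / 2 < t' := ht'
        show _ * _ = _
        rw [ENNReal.ofReal_of_nonpos (p := 2 - 2 * t - 3 / 2 * t') (by linarith), zero_mul])]
    exact lintegral_zero
  · intro t ht
    exact innerI t (1 - 3 / 4 * t) (by linarith [ht.2]) (by linarith [ht.2]) (by linarith)
      (fun x hx => Or.inr (by linarith)) _ (by ring)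

theorem vol_union : volume (RA ∪ RB) = ENNReal.ofReal (19 / 86016) := by
  have h1 := measure_union_add_inter (μ := volume) RA mRB
  rw [volRA, volRB, volI, ← ENNReal.ofReal_add (by norm_num) (by norm_num)] at h1
  have h2 : volume (RA ∪ RB) + ENNReal.ofReal (3 / 28672) =
      ENNReal.ofReal (19 / 86016) + ENNReal.ofReal (3 / 28672) := by
    rw [h1, ← ENNReal.ofReal_add (by norm_num) (by norm_num)]
    congr 1
    norm_num
  exact (ENNReal.add_left_inj ENNReal.ofReal_ne_top).1 h2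

end Pool.Agent.H441.TD.VolC
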