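import Pool.Agent.H592.TD.Stm
import Pool.Agent.H441.TD.VolC

/-! TD12 (helper441): the volume. -/

set_option autoImplicit false

open MeasureTheory

namespace Pool.Agent.H441.TD

theorem vol_eq : (volume (Pool.Agent.H592.TD.RA ∪ Pool.Agent.H592.TD.RB)).toReal = 19 / 86016 := by
  have h : volume (Pool.Agent.H592.TD.RA ∪ Pool.Agent.H592.TD.RB) = ENNReal.ofReal (19 / 86016) :=
    VolC.vol_union
  rw [h, ENNReal.toReal_ofReal (by norm_num)]

theorem s12 : Pool.Agent.H592.TD.S12 := vol_eq.ge

end Pool.Agent.H441.TD
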